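import Mathlib
import Pool.Agent.Q156.SC.Gen

set_option autoImplicit false
set_option linter.unusedSectionVars false

/-!
# The generating function for orthogonal hook-content products

With `a = z / 2 - n + 1`, the function
`V_z (l) = ∏_{i<j} (l_i - l_j) (l_i + l_j + 2 a) ∏ (2 a)_{l_i} / l_i!` of `l_i = μ_i + n - i` is a
constant times `∏ (z + c_sp) / h`, and it satisfies the boundary equations
`α_k V = (z + [k even]) V - α_{-k} V`, where `(α_k f)(l) = ∑ i, f (l + k e_i)` (partial fractions);
the function `U (l) = ∏_{i<j} sign (l_i - l_j)` satisfies `α_k U = [k odd] U + α_{-k} U`.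
The operators `α_k` satisfy the Heisenberg relations, and `∑_k α_{-k} α_k` is the degree. So
`n a_n`, for `a_n` the sum over the partitions of `n` of `V_z U`, is `∑_m c_m a_{n-m}` with an
explicit divisor sum `c_m`, which is the one of the product. Conjugation of the partitions turns
`c_sp` into `-c_O`, and the identity for the rational `t = -z` that are not integers gives the
identity of polynomials.
-/

namespace Pool.Agent.Results.MP_e057d9_co.OrthogonalProduct

open Finset PowerSeries

/-- the hook length of the cell `(i+1, j+1)`; rows and columns are counted from `0`,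
`rowLen i = λ_{i+1}` and `colLen j = λ^t_{j+1}` -/
def hook (μ : YoungDiagram) (c : ℕ × ℕ) : ℤ :=
  ((μ.rowLen c.1 : ℤ) - (c.2 + 1)) + ((μ.colLen c.2 : ℤ) - (c.1 + 1)) + 1

/-- the orthogonal content of the cell `(i+1, j+1)` -/
def co (μ : YoungDiagram) (c : ℕ × ℕ) : ℤ :=
  if c.2 ≤ c.1 then ((μ.rowLen c.1 : ℤ) - (c.1 + 1)) + ((μ.rowLen c.2 : ℤ) - (c.2 + 1))
  else (((c.1 : ℤ) + 1) - μ.colLen c.1) + (((c.2 : ℤ) + 1) - μ.colLen c.2) - 2

/-- `W_O(λ)` -/
noncomputable def WO {R : Type*} [CommRing R] [Algebra ℚ R] (t : R) (μ : YoungDiagram) : R :=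
  ∏ c ∈ μ.cells, ((t + (co μ c : R)) * algebraMap ℚ R (1 / (hook μ c : ℚ)))

/-- there are finitely many Young diagrams with `N` cells -/
theorem finite_diagrams (N : ℕ) : Finite {μ : YoungDiagram // μ.card = N} :=
  inferInstanceAs (Finite (Q156.SC.YD N))

/-- the generating function; the coefficient of `x^N` is the (finite) sum over the Young diagrams
with `N` cells -/
noncomputable def GO {R : Type*} [CommRing R] [Algebra ℚ R] (t : R) : PowerSeries R :=
  PowerSeries.mk fun N => ∑ᶠ μ : {μ : YoungDiagram // μ.card = N}, WO t μ.1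

/-- the binomial coefficient `a (a - 1) ... (a - m + 1) / m!` -/
noncomputable def binom {R : Type*} [CommRing R] [Algebra ℚ R] (a : R) (m : ℕ) : R :=
  algebraMap ℚ R (1 / (m.factorial : ℚ)) * ∏ r ∈ Finset.range m, (a - r)

/-- the binomial series `(1 - x^k)^a = ∑ m, binom a m * (-x^k)^m`, for `k ≥ 1` -/
noncomputable def pw {R : Type*} [CommRing R] [Algebra ℚ R] (k : ℕ) (a : R) : PowerSeries R :=
  PowerSeries.mk fun n => if k ∣ n then (-1) ^ (n / k) * binom a (n / k) else 0

/-- the factor `A_j(x)`; `binom t 2 = t (t - 1) / 2` and `binom (t + 1) 2 = (t + 1) t / 2` -/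
noncomputable def A {R : Type*} [CommRing R] [Algebra ℚ R] (j : ℕ) (t : R) : PowerSeries R :=
  pw (8 * j) (binom t 2) * pw (8 * j - 6) (1 - binom t 2) * pw (4 * j - 1) t *
    pw (4 * j - 3) (-t) * pw (8 * j - 4) (binom (t + 1) 2 - 1) *
    pw (8 * j - 2) (1 - binom (t + 1) 2)

/-- The generating function of `W_O` is congruent to `∏_{j=1}^M A_j(x)` modulo `x^{M+1}`, for
every `M`. This holds in `R[[x]]` for every commutative `ℚ`-algebra `R` and `t` in `R`; `R = ℚ[t]`
is the case of the question. -/
theorem result {R : Type*} [CommRing R] [Algebra ℚ R] (t : R) :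
    ∀ M : ℕ, (X : PowerSeries R) ^ (M + 1) ∣ GO t - ∏ j ∈ Icc 1 M, A j t := by
  intro M
  rw [PowerSeries.X_pow_dvd_iff]
  intro N hN
  have h := Q156.SC.thmB t (N := N) (M := M) (by omega)
  rw [map_sub, sub_eq_zero]
  exact h

end Pool.Agent.Results.MP_e057d9_co.OrthogonalProduct
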